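import Pool.Agent.Lib.MP_4f0d88_nt.CritC

set_option autoImplicit false

open Polynomial

namespace Pool.Agent.Lib.MP_4f0d88_nt.Retired.BelowWright

/-- For every `N ≥ 4` some nonzero polynomial with coefficients in `{-1, 0, 1}` and at most
`4 ⌊(N - 1)² / 4⌋` terms vanishes to order at least `N` at `1`. -/
theorem result (N : ℕ) (hN : 4 ≤ N) :
    ∃ p : Polynomial ℤ, p ≠ 0 ∧ (∀ i : ℕ, p.coeff i ∈ ({-1, 0, 1} : Set ℤ)) ∧
      p.support.card ≤ 4 * ((N - 1) ^ 2 / 4) ∧ N ≤ p.rootMultiplicity 1 := by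
  obtain ⟨P, h1, h2, h3, h4⟩ := Pool.Agent.Lib.MP_4f0d88_nt.Crit.main N hN
  exact ⟨P, h1, h2, h3, (le_rootMultiplicity_iff h1).2 h4⟩

end Pool.Agent.Lib.MP_4f0d88_nt.Retired.BelowWright
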