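import Pool.Agent.Lib.MP_4f0d88_nt.PnS
import Pool.Agent.Lib.MP_4f0d88_nt.PnB

set_option autoImplicit false

open Polynomial

namespace Pool.Agent.Lib.MP_4f0d88_nt.Retired.NearIdeal

/-- For `1 ≤ N ≤ s` and `ε > 0` there is `c` such that for all `D ≥ 1` there are at most
`c * D ^ (2 * √(s * (s - N + 1)) + (s - N + 1) + ε)` nonzero integer polynomials of degree at most
`D` that are divisible by `(X - 1) ^ N` and whose coefficients have absolute values summing to at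
most `2 * s`. -/
theorem result (N s : ℕ) (hN : 1 ≤ N) (_hs : N ≤ s) (ε : ℝ) (hε : 0 < ε) :
    ∃ c : ℝ, ∀ D : ℕ, 1 ≤ D → ∀ F : Finset (Polynomial ℤ),
      (∀ P ∈ F, P ≠ 0 ∧ P.natDegree ≤ D ∧ ∑ i ∈ P.support, |P.coeff i| ≤ 2 * (s : ℤ) ∧
        (X - 1) ^ N ∣ P) →
      (F.card : ℝ) ≤
        c * (D : ℝ) ^ (2 * Real.sqrt (s * ((s : ℝ) - N + 1)) + ((s : ℝ) - N + 1) + ε) :=
  Pool.Agent.Lib.MP_4f0d88_nt.near_of_cost Pool.Agent.Lib.MP_4f0d88_nt.cost_pm N s hN ε hε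

end Pool.Agent.Lib.MP_4f0d88_nt.Retired.NearIdeal
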