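import Pool.Agent.Lib.MP_4f0d88_nt.LOne

set_option autoImplicit false

open Polynomial

namespace Pool.Agent.Lib.MP_4f0d88_nt.Retired.PrimeDivisors

/-- Let `p` be a prime with `N + 2 ≤ p ≤ 2 N - 2`. Every integer polynomial divisible by
`(X - 1) ^ N` whose coefficients have absolute values summing to at most `2 N` (in particular every
polynomial with coefficients in `{-1, 0, 1}`, `2 N` terms and a zero of order at least `N` at `1`)
is divisible by `X ^ p - 1`. -/
theorem result (N p : ℕ) (hp : p.Prime) (h1 : N + 2 ≤ p) (h2 : p + 2 ≤ 2 * N)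
    (P : Polynomial ℤ) (hl : ∑ i ∈ P.support, |P.coeff i| ≤ 2 * (N : ℤ))
    (hm : (X - 1) ^ N ∣ P) : X ^ p - 1 ∣ P :=
  have : Fact p.Prime := ⟨hp⟩
  Pool.Agent.Lib.MP_4f0d88_nt.X_pow_sub_one_dvd_of_l1 p N h1 h2 P hl hm

end Pool.Agent.Lib.MP_4f0d88_nt.Retired.PrimeDivisors
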